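import Pool.Agent.helper87.X4.Spec

set_option autoImplicit false

namespace Pool.Agent.X4

open Matrix Pool.Agent.PL

theorem GE (hOP : OP_stmt) (hEX : EX_stmt) (hEC : EC_stmt) : GE_stmt := by
  intro N h hc
  obtain ⟨X, hX⟩ := hOP N h hc
  have key : ∀ p : Matrix (Fin N) (Fin N) ℝ → Prop,
      (∀ z : Circle, p (h z)) ↔ ∀ s : ℝ, p (NormedSpace.exp (s • X)) := by
    intro p
    constructor
    · intro H s
      rw [← hX s]
      exact H _
    · intro H z
      have e : Circle.exp (Complex.arg (z : ℂ)) = z := Circle.exp_arg z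
      rw [← e, hX]
      exact H _
  refine ⟨X, fun m t => ?_, fun Y => ?_⟩
  · exact (key fun u => tp u m *ᵥ t = t).trans (hEX N m X t)
  · exact (key fun u => u * Y = Y * u).trans (hEC N X Y)

end Pool.Agent.X4
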